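import Pool.Agent.Helper87.MC.Goals

/-!
MP_d8224a_co, packet CLOS: the closure event.
-/

namespace Pool.Agent.Helper96.MC

open Finset Pointwise Pool.Agent.Helper87.MC

open Classical in
/-- Markov's inequality for the number of events. -/
theorem markov (Ω I : Type) [Fintype Ω] [Fintype I] (E : I → Ω → Prop) (k : ℕ) (B : ℝ)
    (hB : ∀ i, (((univ : Finset Ω).filter (fun ω => E i ω)).card : ℝ) ≤ B) :
    (((univ : Finset Ω).filter (fun ω => k ≤ ((univ : Finset I).filter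
      (fun i => E i ω)).card)).card : ℝ) * k ≤ Fintype.card I * B := by
  have h1 : ((univ : Finset Ω).filter (fun ω => k ≤ ((univ : Finset I).filter
      (fun i => E i ω)).card)).card * k ≤
      ∑ i : I, ((univ : Finset Ω).filter (fun ω => E i ω)).card := by
    calc ((univ : Finset Ω).filter (fun ω => k ≤ ((univ : Finset I).filter
          (fun i => E i ω)).card)).card * k
        ≤ ∑ ω ∈ (univ : Finset Ω).filter (fun ω => k ≤ ((univ : Finset I).filter
          (fun i => E i ω)).card), ((univ : Finset I).filter (fun i => E i ω)).card := by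
          rw [← smul_eq_mul]
          exact Finset.card_nsmul_le_sum _ _ _ fun ω hω => (mem_filter.1 hω).2
      _ ≤ ∑ ω : Ω, ((univ : Finset I).filter (fun i => E i ω)).card :=
          Finset.sum_le_sum_of_subset (filter_subset _ _)
      _ = ∑ i : I, ((univ : Finset Ω).filter (fun ω => E i ω)).card := by
          simp only [Finset.card_filter]
          exact Finset.sum_comm
  have h2 : ((((univ : Finset Ω).filter (fun ω => k ≤ ((univ : Finset I).filter
      (fun i => E i ω)).card)).card : ℝ) * k) ≤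
      ∑ i : I, (((univ : Finset Ω).filter (fun ω => E i ω)).card : ℝ) := by
    exact_mod_cast h1
  refine h2.trans ((Finset.sum_le_sum fun i _ => hB i).trans ?_)
  rw [Finset.sum_const, Finset.card_univ, nsmul_eq_mul]

open Classical in
theorem clos_aux (hD : GLemD) (h1 : GPair) (G : Type) [AddCommGroup G] [Fintype G]
    (D : Finset G) (t k n : ℕ) (hkd : D.card = k) (hnd : Fintype.card G = n) (hk : 1 ≤ k)
    (ht : 1 ≤ t) (hcf : CosetFree (D : Set G))
    (hn : (256 : ℝ) * t ^ 2 * k ^ 2 * Real.log k ≤ n) :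
    ((univ : Finset (Fin (4 * k) → G)).filter (fun ξ => k ≤
      ((univ : Finset (Fin (4 * k))).filter (fun i => ∃ w : G, w ≠ 0 ∧
      k ≤ t * rr D w ∧ ∀ x ∈ D, x + w ∉ D → ∃ i', i' ≠ i ∧ ξ i + (x + w) - ξ i' ∈ D)).card)).card
      * 4 ≤ n ^ (4 * k) := by
  have hn0 : 0 < n := hnd ▸ Fintype.card_pos
  have hnR : (0 : ℝ) < n := by exact_mod_cast hn0
  have hkR : (1 : ℝ) ≤ k := by exact_mod_cast hk
  have htR : (1 : ℝ) ≤ t := by exact_mod_cast ht
  have hcard : Fintype.card (Fin (4 * k) → G) = n ^ (4 * k) := by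
    rw [Fintype.card_fun, Fintype.card_fin, hnd]
  have hlog : 0 ≤ Real.log k := Real.log_nonneg hkR
  obtain ⟨ρ, hρ⟩ : ∃ ρ : ℝ, ρ = 4 * (k : ℝ) ^ 2 / n := ⟨_, rfl⟩
  obtain ⟨N, hN⟩ : ∃ N : ℝ, N = (n : ℝ) ^ (4 * k) := ⟨_, rfl⟩
  have hN0 : 0 < N := by rw [hN]; positivity
  have hcardN : ((Fintype.card (Fin (4 * k) → G) : ℕ) : ℝ) = N := by
    rw [hcard, hN]; push_cast; rfl
  have hρ0 : 0 < ρ := by rw [hρ]; positivity
  have hDne : D.Nonempty := card_pos.1 (by omega)
  obtain ⟨S, hSd⟩ : ∃ S : Fin (4 * k) → (Fin (4 * k) → G) → Set G, ∀ i ξ z,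
      z ∈ S i ξ ↔ ∃ i', i' ≠ i ∧ ξ i + z - ξ i' ∈ D :=
    ⟨fun i ξ => {z : G | ∃ i', i' ≠ i ∧ ξ i + z - ξ i' ∈ D}, fun _ _ _ => Iff.rfl⟩
  -- the probability that `z` is covered
  have hS : ∀ (i : Fin (4 * k)) (z : G), z ∉ D →
      (((univ : Finset (Fin (4 * k) → G)).filter (fun ξ => z ∈ S i ξ)).card : ℝ) ≤
        ρ * Fintype.card (Fin (4 * k) → G) := by
    intro i z _
    obtain ⟨P, hP⟩ : ∃ P : Finset G, P = D.image (fun x => x - z) := ⟨_, rfl⟩
    have hPc : P.card = k := by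
      rw [hP, ← hkd]
      exact card_image_of_injective _ fun a b hab => sub_left_injective hab
    have hsub : (univ : Finset (Fin (4 * k) → G)).filter (fun ξ => z ∈ S i ξ) ⊆
        ((univ : Finset (Fin (4 * k))).filter (fun i' => i' ≠ i)).biUnion fun i' =>
          (univ : Finset (Fin (4 * k) → G)).filter (fun ξ => ξ i - ξ i' ∈ P) := by
      intro ξ hξ
      obtain ⟨i', hi', hx⟩ := (hSd i ξ z).1 (mem_filter.1 hξ).2
      refine mem_biUnion.2 ⟨i', mem_filter.2 ⟨mem_univ _, hi'⟩, mem_filter.2 ⟨mem_univ _, ?_⟩⟩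
      rw [hP]
      refine mem_image.2 ⟨_, hx, ?_⟩
      abel
    have hc := (card_le_card hsub).trans card_biUnion_le
    have hpair : ∀ i' ∈ (univ : Finset (Fin (4 * k))).filter (fun i' => i' ≠ i),
        (((univ : Finset (Fin (4 * k) → G)).filter (fun ξ => ξ i - ξ i' ∈ P)).card : ℝ) ≤
          k * N / n := by
      intro i' hi'
      have h := h1 G (4 * k) i i' (mem_filter.1 hi').2.symm P
      rw [hPc, hnd] at h
      rw [le_div_iff₀ hnR, hN]
      refine le_of_eq ?_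
      exact_mod_cast h
    have hcR : (((univ : Finset (Fin (4 * k) → G)).filter (fun ξ => z ∈ S i ξ)).card : ℝ) ≤
        ∑ i' ∈ (univ : Finset (Fin (4 * k))).filter (fun i' => i' ≠ i),
          (((univ : Finset (Fin (4 * k) → G)).filter (fun ξ => ξ i - ξ i' ∈ P)).card : ℝ) := by
      exact_mod_cast hc
    refine hcR.trans ((Finset.sum_le_sum hpair).trans ?_)
    rw [Finset.sum_const, nsmul_eq_mul, hcardN]
    have hc2 : (((univ : Finset (Fin (4 * k))).filter (fun i' => i' ≠ i)).card : ℝ) ≤ 4 * k := by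
      have := card_filter_le (univ : Finset (Fin (4 * k))) (fun i' => i' ≠ i)
      rw [card_univ, Fintype.card_fin] at this
      exact_mod_cast this
    calc (((univ : Finset (Fin (4 * k))).filter (fun i' => i' ≠ i)).card : ℝ) *
          (k * N / n) ≤ (4 * k) * (k * N / n) := by gcongr
      _ = ρ * N := by
          rw [hρ]
          ring
  obtain ⟨Ev, hEv⟩ : ∃ Ev : Fin (4 * k) → (Fin (4 * k) → G) → Prop, ∀ i ξ, Ev i ξ ↔
      ∃ w : G, w ≠ 0 ∧ k ≤ t * rr D w ∧
        ∀ x ∈ D, x + w ∉ D → ∃ i', i' ≠ i ∧ ξ i + (x + w) - ξ i' ∈ D :=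
    ⟨fun i ξ => ∃ w : G, w ≠ 0 ∧ k ≤ t * rr D w ∧
        ∀ x ∈ D, x + w ∉ D → ∃ i', i' ≠ i ∧ ξ i + (x + w) - ξ i' ∈ D, fun _ _ => Iff.rfl⟩
  have hA : ∀ i : Fin (4 * k), (((univ : Finset (Fin (4 * k) → G)).filter
      (fun ξ => Ev i ξ)).card : ℝ) ≤ 4 * (t : ℝ) ^ 2 * ρ * Real.log k * N := by
    intro i
    have h := hD G D hDne hcf (Fin (4 * k) → G) (S i) ρ t hρ0 (by linarith) (hS i)
    rw [hcardN, hkd] at h
    refine le_trans ?_ h
    refine Nat.cast_le.2 (card_le_card fun ξ hξ => ?_)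
    obtain ⟨w, hw0, hw1, hw2⟩ := (hEv i ξ).1 (mem_filter.1 hξ).2
    refine mem_filter.2 ⟨mem_univ _, w, hw0, ?_, fun x hx hxw =>
      (hSd i ξ (x + w)).2 (hw2 x hx hxw)⟩
    exact_mod_cast hw1
  have hM := markov (Fin (4 * k) → G) (Fin (4 * k)) Ev k _ hA
  rw [Fintype.card_fin] at hM
  have hgoal : (((univ : Finset (Fin (4 * k) → G)).filter (fun ξ => k ≤
    ((univ : Finset (Fin (4 * k))).filter (fun i => Ev i ξ)).card)).card : ℝ) * 4 ≤ N := by
    obtain ⟨C, hC⟩ : ∃ C : ℝ, C = (((univ : Finset (Fin (4 * k) → G)).filter (fun ξ => k ≤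
      ((univ : Finset (Fin (4 * k))).filter (fun i => Ev i ξ)).card)).card : ℝ) := ⟨_, rfl⟩
    rw [← hC] at hM ⊢
    have h3 : C ≤ 16 * (t : ℝ) ^ 2 * ρ * Real.log k * N := by
      have h4 : C * k ≤ (16 * (t : ℝ) ^ 2 * ρ * Real.log k * N) * k := by
        refine hM.trans (le_of_eq ?_)
        push_cast
        ring
      exact le_of_mul_le_mul_right h4 (by linarith)
    calc C * 4 ≤ (16 * (t : ℝ) ^ 2 * ρ * Real.log k * N) * 4 := by gcongr
      _ = (256 * t ^ 2 * k ^ 2 * Real.log k) / n * N := by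
          rw [hρ]
          ring
      _ ≤ 1 * N := by
          gcongr
          rw [div_le_one hnR]
          exact hn
      _ = _ := one_mul _
  rw [hN] at hgoal
  have hgoal2 : ((univ : Finset (Fin (4 * k) → G)).filter (fun ξ => k ≤
    ((univ : Finset (Fin (4 * k))).filter (fun i => Ev i ξ)).card)).card * 4 ≤ n ^ (4 * k) := by
    exact_mod_cast hgoal
  refine le_trans (Nat.mul_le_mul_right 4 (card_le_card fun ξ hξ => ?_)) hgoal2
  refine mem_filter.2 ⟨mem_univ _, (mem_filter.1 hξ).2.trans (card_le_card fun i hi => ?_)⟩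
  exact mem_filter.2 ⟨mem_univ _, (hEv i ξ).2 (mem_filter.1 hi).2⟩

theorem clos (hD : GLemD) (h1 : GPair) : GClos := by
  intro G _ _ D t hk ht hcf hn
  exact clos_aux hD h1 G D t _ _ rfl rfl hk ht hcf hn

end Pool.Agent.Helper96.MC
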